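import Mathlib
import Pool.Agent.Helper648.FZ.Count

set_option autoImplicit false

open Filter Topology

namespace Pool.Agent.Helper648.FZ

/-- the integers below `N` reaching `1` in fewer than `3.4 log n` steps -/
def Sh (N : ℕ) : Set ℕ :=
  {n : ℕ | n < N ∧ ∃ k : ℕ, T^[k] n = 1 ∧ (k : ℝ) < 3.4 * Real.log n}

theorem log_small : 3.4 * Real.log 1.339 ≤ 0.993 := by
  have h1 : (1.339 : ℝ) ^ 17 ≤ Real.exp 4.965 := by
    have h2 : Real.exp 4.965 = Real.exp 1 ^ 5 * Real.exp (-0.035) := by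
      rw [← Real.exp_nat_mul, ← Real.exp_add]; norm_num
    have h3 := Real.add_one_le_exp (-0.035 : ℝ)
    have h4 := Real.exp_one_gt_d9
    have h5 : (2.7182818283 : ℝ) ^ 5 ≤ Real.exp 1 ^ 5 :=
      pow_le_pow_left₀ (by norm_num) h4.le 5
    rw [h2]
    calc (1.339 : ℝ) ^ 17 ≤ 2.7182818283 ^ 5 * 0.965 := by norm_num
      _ ≤ Real.exp 1 ^ 5 * Real.exp (-0.035) := by
        apply mul_le_mul h5 (by linarith) (by norm_num) (by positivity)
  have h5 := Real.log_le_log (by positivity) h1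
  rw [Real.log_exp, Real.log_pow] at h5
  norm_num at h5 ⊢
  linarith

theorem pow_bound (N : ℕ) (hN : 1 ≤ N) :
    (1.339 : ℝ) ^ ⌊3.4 * Real.log N⌋₊ ≤ (N : ℝ) ^ (0.993 : ℝ) := by
  have hN' : (0 : ℝ) < N := by exact_mod_cast hN
  have hlN : 0 ≤ Real.log N := Real.log_nonneg (by exact_mod_cast hN)
  have hl : 0 ≤ Real.log 1.339 := Real.log_nonneg (by norm_num)
  have h1 : ((⌊3.4 * Real.log N⌋₊ : ℕ) : ℝ) ≤ 3.4 * Real.log N := Nat.floor_le (by positivity)
  rw [Real.rpow_def_of_pos hN', ← Real.rpow_natCast, Real.rpow_def_of_pos (by norm_num)]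
  apply Real.exp_le_exp.mpr
  calc Real.log 1.339 * (⌊3.4 * Real.log N⌋₊ : ℕ) ≤ Real.log 1.339 * (3.4 * Real.log N) :=
        mul_le_mul_of_nonneg_left h1 hl
    _ = (3.4 * Real.log 1.339) * Real.log N := by ring
    _ ≤ 0.993 * Real.log N := mul_le_mul_of_nonneg_right log_small hlN
    _ = Real.log N * 0.993 := by ring

theorem Sh_subset (N : ℕ) (hN : 1 ≤ N) : Sh N ⊆
    (((Finset.range (⌊3.4 * Real.log N⌋₊ + 1)).biUnion fun k => (A_finite k 1).toFinset) :
      Finset ℕ) := by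
  rintro n ⟨hn, k, hk, hlt⟩
  simp only [Finset.coe_biUnion, Set.mem_iUnion, Finset.mem_coe, Finset.mem_range,
    Set.Finite.mem_toFinset]
  refine ⟨k, ?_, hk⟩
  have h1 : Real.log n ≤ Real.log N := by
    rcases Nat.eq_zero_or_pos n with h0 | h0
    · rw [h0]
      simpa using Real.log_nonneg (by exact_mod_cast hN : (1 : ℝ) ≤ N)
    · exact Real.log_le_log (by exact_mod_cast h0) (by exact_mod_cast hn.le)
  exact Nat.lt_succ_of_le (Nat.le_floor (by linarith))

theorem Sh_finite (N : ℕ) : (Sh N).Finite := (Set.finite_lt_nat N).subset fun _ hn => hn.1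

theorem count_le (N : ℕ) (hN : 1 ≤ N) :
    ((Sh N).ncard : ℝ) ≤ 16200 * (N : ℝ) ^ (0.993 : ℝ) := by
  set K := ⌊3.4 * Real.log N⌋₊ with hK
  have h1 : (Sh N).ncard ≤ ∑ k ∈ Finset.range (K + 1), (A k 1).ncard := by
    calc (Sh N).ncard ≤ (((Finset.range (K + 1)).biUnion fun k => (A_finite k 1).toFinset :
            Finset ℕ) : Set ℕ).ncard :=
          Set.ncard_le_ncard (Sh_subset N hN) (Finset.finite_toSet _)
      _ = ((Finset.range (K + 1)).biUnion fun k => (A_finite k 1).toFinset).card :=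
          Set.ncard_coe_finset _
      _ ≤ ∑ k ∈ Finset.range (K + 1), ((A_finite k 1).toFinset).card := Finset.card_biUnion_le
      _ = ∑ k ∈ Finset.range (K + 1), (A k 1).ncard := by
          apply Finset.sum_congr rfl
          intro k _
          rw [Set.ncard_eq_toFinset_card _ (A_finite k 1)]
  have h2 : ((Sh N).ncard : ℝ) ≤ ∑ k ∈ Finset.range (K + 1), 4096 * (1.339 : ℝ) ^ k := by
    calc ((Sh N).ncard : ℝ) ≤ ((∑ k ∈ Finset.range (K + 1), (A k 1).ncard : ℕ) : ℝ) := by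
          exact_mod_cast h1
      _ = ∑ k ∈ Finset.range (K + 1), ((A k 1).ncard : ℝ) := by push_cast; rfl
      _ ≤ _ := Finset.sum_le_sum fun k _ => bound_real k 1
  rw [← Finset.mul_sum, geom_sum_eq (by norm_num)] at h2
  have h3 := pow_bound N hN
  rw [← hK] at h3
  have h4 : 0 < (1.339 : ℝ) ^ K := by positivity
  rw [pow_succ] at h2
  have h5 : ((1.339 : ℝ) ^ K * 1.339 - 1) / (1.339 - 1) ≤ (1.339 : ℝ) ^ K * (1.339 / 0.339) := by
    rw [div_le_iff₀ (by norm_num)]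
    nlinarith
  nlinarith

/-- number of steps -/
noncomputable def S (n : ℕ) : ℕ := sInf {k : ℕ | T^[k] n = 1}

theorem sum_log (x : ℕ) : ∑ n ∈ Finset.Icc 1 x, Real.log n = Real.log (Nat.factorial x : ℕ) := by
  induction x with
  | zero => simp
  | succ x ih =>
    rw [Finset.sum_Icc_succ_top (by omega), ih, Nat.factorial_succ]
    push_cast
    rw [Real.log_mul (by positivity) (by positivity)]
    ring

theorem log_fact (x : ℕ) (hx : 1 ≤ x) :
    (x : ℝ) * Real.log x - x ≤ Real.log (Nat.factorial x : ℕ) := by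
  have hx' : (0 : ℝ) < x := by exact_mod_cast hx
  have h := Real.pow_div_factorial_le_exp (x : ℝ) hx'.le x
  have h2 := Real.log_le_log (by positivity) h
  rw [Real.log_exp, Real.log_div (by positivity) (by positivity), Real.log_pow] at h2
  linarith

theorem sum_S (h : ∀ n : ℕ, 1 ≤ n → ∃ k : ℕ, T^[k] n = 1) (x : ℕ) (hx : 1 ≤ x) :
    3.4 * ((x : ℝ) * Real.log x - x) - 3.4 * Real.log x * (Sh (x + 1)).ncard ≤
      ∑ n ∈ Finset.Icc 1 x, (S n : ℝ) := by
  classical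
  have hlx : 0 ≤ Real.log x := Real.log_natCast_nonneg x
  have h1 : ∀ n ∈ Finset.Icc 1 x, 3.4 * Real.log n - (if n ∈ Sh (x + 1) then 3.4 * Real.log x else 0)
      ≤ (S n : ℝ) := by
    intro n hn
    rw [Finset.mem_Icc] at hn
    have hS : (0 : ℝ) ≤ S n := Nat.cast_nonneg _
    have hmem : T^[S n] n = 1 := Nat.sInf_mem (h n hn.1)
    split_ifs with hm
    · have : Real.log n ≤ Real.log x :=
        Real.log_le_log (by exact_mod_cast hn.1) (by exact_mod_cast hn.2)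
      linarith
    · by_contra hcon
      push Not at hcon
      exact hm ⟨by omega, S n, hmem, by linarith⟩
  have h2 := Finset.sum_le_sum h1
  rw [Finset.sum_sub_distrib, ← Finset.mul_sum, sum_log, ← Finset.sum_filter, Finset.sum_const,
    nsmul_eq_mul] at h2
  have h3 : (((Finset.Icc 1 x).filter fun n => n ∈ Sh (x + 1)).card : ℝ) ≤ (Sh (x + 1)).ncard := by
    have : ((Finset.Icc 1 x).filter fun n => n ∈ Sh (x + 1)).card ≤ (Sh (x + 1)).ncard := by
      rw [← Set.ncard_coe_finset]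
      apply Set.ncard_le_ncard _ (Sh_finite _)
      intro n hn
      simpa using (Finset.mem_filter.mp (Finset.mem_coe.mp hn)).2
    exact_mod_cast this
  have h4 := log_fact x hx
  nlinarith [mul_le_mul_of_nonneg_right h3 (by positivity : (0 : ℝ) ≤ 3.4 * Real.log x)]

theorem small_term :
    Tendsto (fun x : ℕ => 3.4 * Real.log x * (16200 * ((x + 1 : ℕ) : ℝ) ^ (0.993 : ℝ)) / (x : ℝ))
      atTop (𝓝 0) := by
  have hb : ∀ᶠ x : ℕ in atTop,
      3.4 * Real.log x * (16200 * ((x + 1 : ℕ) : ℝ) ^ (0.993 : ℝ)) / (x : ℝ) ≤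
        (3.4 * 16200 * 2) * (Real.log x * (x : ℝ) ^ (-(0.007 : ℝ))) := by
    filter_upwards [eventually_ge_atTop 1] with x hx
    have hx' : (0 : ℝ) < x := by exact_mod_cast hx
    have hlx : 0 ≤ Real.log x := Real.log_natCast_nonneg x
    have h1 : ((x + 1 : ℕ) : ℝ) ^ (0.993 : ℝ) ≤ 2 * (x : ℝ) ^ (0.993 : ℝ) := by
      have h2 : ((x + 1 : ℕ) : ℝ) ≤ 2 * x := by
        have : (1 : ℝ) ≤ x := by exact_mod_cast hx
        push_cast
        linarith
      calc ((x + 1 : ℕ) : ℝ) ^ (0.993 : ℝ) ≤ (2 * (x : ℝ)) ^ (0.993 : ℝ) :=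
            Real.rpow_le_rpow (by positivity) h2 (by norm_num)
        _ = (2 : ℝ) ^ (0.993 : ℝ) * (x : ℝ) ^ (0.993 : ℝ) := Real.mul_rpow (by norm_num) hx'.le
        _ ≤ 2 * (x : ℝ) ^ (0.993 : ℝ) := by
            apply mul_le_mul_of_nonneg_right _ (by positivity)
            calc (2 : ℝ) ^ (0.993 : ℝ) ≤ (2 : ℝ) ^ (1 : ℝ) :=
                  Real.rpow_le_rpow_of_exponent_le (by norm_num) (by norm_num)
              _ = 2 := Real.rpow_one 2
    have h3 : (x : ℝ) ^ (0.993 : ℝ) = (x : ℝ) ^ (-(0.007 : ℝ)) * x := by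
      rw [← Real.rpow_add_one hx'.ne']; norm_num
    rw [div_le_iff₀ hx']
    calc 3.4 * Real.log x * (16200 * ((x + 1 : ℕ) : ℝ) ^ (0.993 : ℝ))
        ≤ 3.4 * Real.log x * (16200 * (2 * (x : ℝ) ^ (0.993 : ℝ))) := by gcongr
      _ = (3.4 * 16200 * 2) * (Real.log x * (x : ℝ) ^ (-(0.007 : ℝ))) * x := by rw [h3]; ring
  have h0 : Tendsto (fun x : ℕ => (3.4 * 16200 * 2) * (Real.log x * (x : ℝ) ^ (-(0.007 : ℝ))))
      atTop (𝓝 0) := by
    have h1 : Tendsto (fun x : ℝ => Real.log x / x ^ (0.007 : ℝ)) atTop (𝓝 0) :=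
      (isLittleO_log_rpow_atTop (by norm_num : (0 : ℝ) < 0.007)).tendsto_div_nhds_zero
    have h2 := (h1.comp (tendsto_natCast_atTop_atTop (R := ℝ))).const_mul (3.4 * 16200 * 2)
    rw [mul_zero] at h2
    refine h2.congr fun x => ?_
    simp only [Function.comp]
    rw [Real.rpow_neg (by positivity), div_eq_mul_inv]
  refine squeeze_zero' (Eventually.of_forall fun x => ?_) hb h0
  have hlx : 0 ≤ Real.log x := Real.log_natCast_nonneg x
  positivity

theorem average (h : ∀ n : ℕ, 1 ≤ n → ∃ k : ℕ, T^[k] n = 1) :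
    ∀ᶠ x : ℕ in atTop, 3.4 * Real.log x - 4 ≤ (1 / (x : ℝ)) * ∑ n ∈ Finset.Icc 1 x, (S n : ℝ) := by
  filter_upwards [eventually_ge_atTop 1,
    small_term.eventually (gt_mem_nhds (by norm_num : (0 : ℝ) < 0.6))] with x hx hs
  have hx' : (0 : ℝ) < x := by exact_mod_cast hx
  have hlx : 0 ≤ Real.log x := Real.log_natCast_nonneg x
  have h1 := sum_S h x hx
  have h2 := count_le (x + 1) (by omega)
  rw [div_lt_iff₀ hx'] at hs
  have h3 : 3.4 * Real.log x * ((Sh (x + 1)).ncard : ℝ) ≤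
      3.4 * Real.log x * (16200 * ((x + 1 : ℕ) : ℝ) ^ (0.993 : ℝ)) :=
    mul_le_mul_of_nonneg_left h2 (by positivity)
  rw [one_div, ← div_eq_inv_mul, le_div_iff₀ hx']
  nlinarith

theorem tendsto_main (c : ℝ) (hc : c ≤ 3.4) :
    Tendsto (fun N : ℕ => (({n : ℕ | n < N ∧ ∃ k : ℕ, T^[k] n = 1 ∧
      (k : ℝ) < c * Real.log n}.ncard : ℝ) / (N : ℝ))) atTop (𝓝 0) := by
  have hlim : Tendsto (fun N : ℕ => 16200 * ((N : ℝ) ^ (-(0.007 : ℝ)))) atTop (𝓝 0) := by
    have h := (tendsto_rpow_neg_atTop (y := (0.007 : ℝ)) (by norm_num)).comp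
      (tendsto_natCast_atTop_atTop (R := ℝ))
    simpa using h.const_mul 16200
  refine squeeze_zero' (Eventually.of_forall fun N => by positivity) ?_ hlim
  filter_upwards [eventually_ge_atTop 1] with N hN
  have hN' : (0 : ℝ) < N := by exact_mod_cast hN
  have hsub : {n : ℕ | n < N ∧ ∃ k : ℕ, T^[k] n = 1 ∧ (k : ℝ) < c * Real.log n} ⊆ Sh N := by
    rintro n ⟨h1, k, h3, h4⟩
    refine ⟨h1, k, h3, lt_of_lt_of_le h4 ?_⟩
    exact mul_le_mul_of_nonneg_right hc (Real.log_natCast_nonneg n)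
  have h1 : (({n : ℕ | n < N ∧ ∃ k : ℕ, T^[k] n = 1 ∧
      (k : ℝ) < c * Real.log n}.ncard : ℝ)) ≤ 16200 * (N : ℝ) ^ (0.993 : ℝ) :=
    le_trans (by exact_mod_cast Set.ncard_le_ncard hsub (Sh_finite N)) (count_le N hN)
  rw [div_le_iff₀ hN', mul_assoc, ← Real.rpow_add_one hN'.ne']
  norm_num at h1 ⊢
  exact h1

end Pool.Agent.Helper648.FZ
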